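import Mathlib
import Pool.Agent.H594.HT.Sum
import Pool.Agent.H594.KP.Dual
import Pool.Graph.R_seed8.H340R2.LW

/-!
# Heights of the exceptional multiples of `e` and of other numbers

Is `e ^ e` irrational? We consider the numbers `(α e) ^ (β e)` with algebraic `α`, `β` (the question
is about `α = β = 1`) and show that the numbers `α` for which one of them is algebraic are far from
each other with respect to the height: there is a constant `C` such that for all algebraic numbers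
`y ≠ z`, of any degree, with `h(y) > C (1 + h(y - z))`, all values of `(y e) ^ (β e)` or all values of
`(z e) ^ (β e)`, for all algebraic `β ≠ 0`, are transcendental. In fact this holds for sums of
arbitrarily many numbers and for all products `e ^ (x_0) (α e ^ w) ^ (x_1)` whose exponents are
quotients of polynomials of bounded degree in given numbers, `x_1` transcendental; and there are at
most polynomially many representations of a number as a sum of algebraic numbers which are equal to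
exceptional numbers up to factors of small height.

By the theorem of Waldschmidt and Roy on points of hyperplanes with coordinates in the space of
linear forms in logarithms (starting files `Pool.Agent.W254.HP`) the exceptional `α` lie in a group
of finite rank, and we apply height inequalities for sums of elements of such groups (library
`Q204.UF`).
-/

set_option autoImplicit false

namespace Pool.Agent.Results.MP_58ae59_nt.HeightsOfExceptionalMultiples

open Pool.Agent.H594.ML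
open Pool.Agent.H594.KP (powers_main)
open Pool.Agent.H594.HT (sum_heights sum_near)
open Pool.Agent.Helper259.AbsHt Pool.Agent.Y215.SK
open Pool.Agent.H340R2.LW (transcendental_exp_one)

/-- The absolute logarithmic height of an algebraic number `z`. (The image of the embedding `sg` of
an algebraic closure `Qbar` of `ℚ` consists of the algebraic numbers, and `h1 a` is the absolute
logarithmic height of `a`; for transcendental `z` the value has no meaning.) -/
noncomputable def ht (z : ℂ) : ℝ := h1 (Function.invFun sg z)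

/-- The linear combinations, with algebraic coefficients, of `1` and of logarithms of algebraic
numbers. -/
noncomputable def LogForms : Submodule (algebraicClosure ℚ ℂ) ℂ :=
  Submodule.span (algebraicClosure ℚ ℂ) ({1} ∪ {z : ℂ | IsAlgebraic ℚ (Complex.exp z)})

/-- The numbers `e ^ z` with `z` in `LogForms`, i.e. the numbers `e ^ γ α_1 ^ β_1 ⋯ α_k ^ β_k` with
algebraic `γ`, `α_i ≠ 0`, `β_i`. All nonzero algebraic numbers are of this form. -/
def Prods : Set ℂ := {x | ∃ z ∈ LogForms, Complex.exp z = x}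

/-- The tuples `(A_0(t) / Q(t), ..., A_k(t) / Q(t))` with polynomials `A_j`, `Q` with algebraic
coefficients and of degree at most `D` in each variable, `Q(t) ≠ 0`. -/
def quots {r : ℕ} (t : Fin r → ℂ) (D k : ℕ) : Set (Fin (k + 1) → ℂ) :=
  {x | ∃ (A : Fin (k + 1) → MvPolynomial (Fin r) (algebraicClosure ℚ ℂ))
    (Q : MvPolynomial (Fin r) (algebraicClosure ℚ ℂ)), (∀ j i, (A j).degreeOf i ≤ D) ∧
    (∀ i, Q.degreeOf i ≤ D) ∧ MvPolynomial.aeval t Q ≠ 0 ∧
    ∀ j, x j = MvPolynomial.aeval t (A j) / MvPolynomial.aeval t Q}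

/-- The exceptional multipliers: the algebraic numbers `α` such that for some logarithm `l` of `α`
and some `(x_0, x_1)` in `quots t D 1` with `x_1` transcendental the number
`e ^ (x_0) e ^ (x_1 (l + w))` is in `Prods`. -/
def Exc {r : ℕ} (t : Fin r → ℂ) (D : ℕ) (w : ℂ) : Set ℂ :=
  {α | IsAlgebraic ℚ α ∧ ∃ l : ℂ, Complex.exp l = α ∧ ∃ x ∈ quots t D 1,
    Transcendental ℚ (x 1) ∧ Complex.exp (x 0) * Complex.exp (x 1 * (l + w)) ∈ Prods}

/-- all values of the powers `(z e) ^ (β e)` with algebraic `β ≠ 0` are transcendental -/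
def AllTranscendental (z : ℂ) : Prop :=
  ∀ β : ℂ, IsAlgebraic ℚ β → β ≠ 0 → ∀ l : ℂ, Complex.exp l = z →
    Transcendental ℚ (Complex.exp (β * Complex.exp 1 * (l + 1)))

theorem alg_lt {w : ℂ} (h : IsAlgebraic ℚ (Complex.exp w)) : w ∈ LogForms :=
  Submodule.subset_span (Or.inr h)

theorem alg_prods {x : ℂ} (hx : IsAlgebraic ℚ x) (hx0 : x ≠ 0) : x ∈ Prods := by
  refine ⟨Complex.log x, ?_, Complex.exp_log hx0⟩
  refine alg_lt ?_
  rwa [Complex.exp_log hx0]

theorem prods_lt {w : ℂ} (h : Complex.exp w ∈ Prods) : w ∈ LogForms := by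
  obtain ⟨z, hz, e⟩ := h
  exact Pool.Agent.HP778.mem_of_exp hz e.symm

theorem ht_sg (y : Qbar) : ht (sg y) = h1 y := by
  unfold ht
  rw [Function.leftInverse_invFun sg_inj y]

theorem ht_nonneg (z : ℂ) : 0 ≤ ht z := h1_nonneg _

theorem ht_neg {z : ℂ} (hz : IsAlgebraic ℚ z) : ht (-z) = ht z := by
  obtain ⟨y, rfl⟩ := exists_sg hz
  rw [← map_neg, ht_sg, ht_sg, h1_neg]

theorem ht_one : ht 1 = 0 := by
  rw [← map_one sg, ht_sg, h1_one]

/-- the exceptional multipliers are in a group of finite rank -/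
theorem exc_hull {r : ℕ} (t : Fin r → ℂ) (D : ℕ) (w : ℂ) : ∃ Γ : Subgroup Qbarˣ, Γ.FG ∧
    ∀ α ∈ Exc t D w, ∃ u ∈ DivHull Γ, α = sg (u : Qbarˣ) := by
  obtain ⟨Γ, hΓ, hmain⟩ := powers_main t D (k := 1) (fun _ => w)
  refine ⟨Γ, hΓ, ?_⟩
  rintro α ⟨hα, l, hl, x, ⟨A, Q, hA, hQ, hQ0, hx⟩, htr, hmem⟩
  have hα0 : α ≠ 0 := by
    rw [← hl]
    exact Complex.exp_ne_zero l
  obtain ⟨u, hu⟩ := exists_unit hα hα0
  by_contra hcon
  have hind : ∀ m : Fin 1 → ℤ, m ≠ 0 → ¬ ∃ v ∈ DivHull Γ, ∏ j, (fun _ : Fin 1 => α) j ^ m j = sg v := by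
    rintro m hm ⟨v, hv, he⟩
    have hm0 : m 0 ≠ 0 := by
      intro h0
      apply hm
      funext i
      rw [Subsingleton.elim i 0, h0]
      rfl
    rw [Fin.prod_univ_one] at he
    have h1 : u ^ (m 0) = v := by
      apply sgu_inj
      rw [Units.val_zpow_eq_zpow_val, map_zpow₀, ← hu]
      exact he
    apply hcon
    refine ⟨u, ?_, hu⟩
    obtain ⟨n, hn, hvn⟩ := hv
    rw [← h1, ← zpow_natCast, ← zpow_mul] at hvn
    refine ⟨(m 0 * n).natAbs, Int.natAbs_pos.2 (mul_ne_zero hm0 (by exact_mod_cast hn.ne')), ?_⟩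
    rcases Int.natAbs_eq (m 0 * n) with h | h
    · rw [h, zpow_natCast] at hvn
      exact hvn
    · rw [h, zpow_neg, zpow_natCast] at hvn
      exact (Subgroup.inv_mem_iff Γ).1 hvn
  have h2 := prods_lt (by rw [Complex.exp_add]; exact hmem :
    Complex.exp (x 0 + x 1 * (l + w)) ∈ Prods)
  have h3 := hmain (fun _ => α) (fun _ => hα) hind (fun _ => l) (fun _ => hl) (A 0) Q
    (fun _ => A 1) (hA 0) hQ (fun _ => hA 1) hQ0 (by
      rw [Fin.sum_univ_one]
      have e0 := hx 0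
      have e1 := hx 1
      rw [← e0, ← e1]
      exact h2) 0
  obtain ⟨c, hc⟩ := h3
  apply htr
  rw [hx 1, hc]
  exact mem_algebraicClosure_iff.1 c.2

theorem heights {r : ℕ} (t : Fin r → ℂ) (D : ℕ) (w : ℂ) (n : ℕ) : ∃ C : ℝ, 0 ≤ C ∧
    ∀ α c : Fin n → ℂ, (∀ j, α j ∈ Exc t D w) → (∀ j, IsAlgebraic ℚ (c j)) →
      (∀ I : Finset (Fin n), I.Nonempty → ∑ j ∈ I, c j * α j ≠ 0) →
      ∀ j, ht (α j) ≤ C * (1 + ht (∑ j, c j * α j) + ∑ j, ht (c j)) := by
  obtain ⟨Γ, hΓ, hexc⟩ := exc_hull t D w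
  obtain ⟨C, hC0, hC⟩ := sum_heights Γ hΓ n
  refine ⟨C, hC0, fun α c hα hc hne j => ?_⟩
  choose u hu hαu using fun j => hexc _ (hα j)
  choose d hd using fun j => exists_sg (hc j)
  have hsum : ∀ I : Finset (Fin n), ∑ j ∈ I, c j * α j = sg (∑ j ∈ I, d j * (u j : Qbar)) := by
    intro I
    rw [map_sum]
    refine Finset.sum_congr rfl fun j _ => ?_
    rw [map_mul, hd, hαu]
  have h1 := hC u d hu (fun I hI h0 => hne I hI (by rw [hsum, h0, map_zero])) j
  rw [hsum, hαu, ht_sg, ht_sg]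
  refine h1.trans (le_of_eq ?_)
  congr 2
  refine Finset.sum_congr rfl fun j _ => ?_
  rw [← hd j, ht_sg]

theorem sum_two (I : Finset (Fin 2)) (f : Fin 2 → ℂ) :
    ∑ j ∈ I, f j = (if 0 ∈ I then f 0 else 0) + (if 1 ∈ I then f 1 else 0) := by
  have h1 : ∑ j ∈ I, f j = ∑ j, if j ∈ I then f j else 0 := by
    rw [Finset.sum_ite_mem, Finset.univ_inter]
  rw [h1, Fin.sum_univ_two]

theorem pairs {r : ℕ} (t : Fin r → ℂ) (D : ℕ) (w : ℂ) : ∃ C : ℝ, 0 ≤ C ∧
    ∀ α ∈ Exc t D w, ∀ β ∈ Exc t D w, α ≠ β → ht α + ht β ≤ C * (1 + ht (α - β)) := by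
  obtain ⟨C, hC0, hC⟩ := heights t D w 2
  refine ⟨2 * C, by positivity, fun α hα β hβ hne => ?_⟩
  have hα0 : α ≠ 0 := by
    obtain ⟨-, l, hl, -⟩ := hα
    rw [← hl]
    exact Complex.exp_ne_zero l
  have hβ0 : β ≠ 0 := by
    obtain ⟨-, l, hl, -⟩ := hβ
    rw [← hl]
    exact Complex.exp_ne_zero l
  have h1 := hC ![α, β] ![1, -1] (fun j => by
      fin_cases j
      · exact hα
      · exact hβ) (fun j => by
      fin_cases j
      · exact isAlgebraic_one
      · exact isAlgebraic_one.neg) (fun I hI h0 => by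
      have h2 : ∑ j ∈ I, (![1, -1] : Fin 2 → ℂ) j * (![α, β] : Fin 2 → ℂ) j =
          (if 0 ∈ I then α else 0) + (if 1 ∈ I then -β else 0) := by
        rw [sum_two]
        simp
      rw [h2] at h0
      by_cases a : (0 : Fin 2) ∈ I <;> by_cases b : (1 : Fin 2) ∈ I
      · rw [if_pos a, if_pos b] at h0
        exact hne (by linear_combination h0)
      · rw [if_pos a, if_neg b, add_zero] at h0
        exact hα0 h0
      · rw [if_neg a, if_pos b, zero_add, neg_eq_zero] at h0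
        exact hβ0 h0
      · obtain ⟨i, hi⟩ := hI
        fin_cases i
        · exact a hi
        · exact b hi)
  have e0 := h1 0
  have e1 := h1 1
  simp only [Fin.sum_univ_two, Matrix.cons_val_zero, Matrix.cons_val_one, one_mul, neg_one_mul,
    ht_one, ht_neg isAlgebraic_one, add_zero, ← sub_eq_add_neg] at e0 e1
  linarith

/-- the number of representations -/
theorem near {r : ℕ} (t : Fin r → ℂ) (D : ℕ) (w : ℂ) (n : ℕ) : ∃ (ε B : ℝ) (e : ℕ), 0 < ε ∧
    0 ≤ B ∧ ∀ (c : Fin n → ℂ) (s : ℂ), (∀ j, IsAlgebraic ℚ (c j)) → IsAlgebraic ℚ s →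
      {x : Fin n → ℂ | (∀ j, IsAlgebraic ℚ (x j) ∧ ∃ α ∈ Exc t D w, ht (x j / α) < ε) ∧
        ∑ j, c j * x j = s ∧ ∀ I : Finset (Fin n), I.Nonempty → ∑ j ∈ I, c j * x j ≠ 0}.Finite ∧
      ({x : Fin n → ℂ | (∀ j, IsAlgebraic ℚ (x j) ∧ ∃ α ∈ Exc t D w, ht (x j / α) < ε) ∧
        ∑ j, c j * x j = s ∧ ∀ I : Finset (Fin n), I.Nonempty →
        ∑ j ∈ I, c j * x j ≠ 0}.ncard : ℝ) ≤ B * (1 + ht s + ∑ j, ht (c j)) ^ e := by
  obtain ⟨Γ, hΓ, hexc⟩ := exc_hull t D w
  obtain ⟨ε, B, e, hε, hB0, hB⟩ := sum_near Γ hΓ n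
  refine ⟨ε, B, e, hε, hB0, fun c s hc hs => ?_⟩
  choose d hd using fun j => exists_sg (hc j)
  obtain ⟨s', rfl⟩ := exists_sg hs
  obtain ⟨k1, k2⟩ := hB d s'
  have hsub : {x : Fin n → ℂ | (∀ j, IsAlgebraic ℚ (x j) ∧ ∃ α ∈ Exc t D w, ht (x j / α) < ε) ∧
        ∑ j, c j * x j = sg s' ∧ ∀ I : Finset (Fin n), I.Nonempty → ∑ j ∈ I, c j * x j ≠ 0} ⊆
      (fun y j => sg (y j)) '' {x : Fin n → Qbar | (∀ j, ∃ u ∈ DivHull Γ,
        h1 (x j / (u : Qbarˣ)) < ε) ∧ ∑ j, d j * x j = s' ∧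
        ∀ I : Finset (Fin n), I.Nonempty → ∑ j ∈ I, d j * x j ≠ 0} := by
    rintro x ⟨hx, hsum, hne⟩
    choose y hy using fun j => exists_sg (hx j).1
    have hsum' : ∀ I : Finset (Fin n), ∑ j ∈ I, c j * x j = sg (∑ j ∈ I, d j * y j) := by
      intro I
      rw [map_sum]
      refine Finset.sum_congr rfl fun j _ => ?_
      rw [map_mul, hd, hy]
    refine ⟨y, ⟨fun j => ?_, ?_, fun I hI h0 => hne I hI (by rw [hsum', h0, map_zero])⟩,
      funext hy⟩
    · obtain ⟨-, α, hα, hlt⟩ := hx j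
      obtain ⟨u, hu, rfl⟩ := hexc α hα
      refine ⟨u, hu, ?_⟩
      rw [← hy j, ← map_div₀, ht_sg] at hlt
      exact hlt
    · apply sg_inj
      rw [← hsum', hsum]
  refine ⟨(k1.image _).subset hsub, ?_⟩
  have h3 := (Set.ncard_le_ncard hsub (k1.image _)).trans (Set.ncard_image_le k1)
  refine (Nat.cast_le.2 h3).trans (k2.trans (le_of_eq ?_))
  rw [ht_sg]
  congr 3
  refine Finset.sum_congr rfl fun j _ => ?_
  rw [← hd j, ht_sg]

/-- the powers of multiples of `e` -/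
theorem exc_e {z : ℂ} (hz : IsAlgebraic ℚ z) (h : ¬ AllTranscendental z) :
    z ∈ Exc (fun _ : Fin 1 => Complex.exp 1) 1 1 := by
  unfold AllTranscendental at h
  push Not at h
  obtain ⟨β, hβ, hβ0, l, hl, htr⟩ := h
  have halg : IsAlgebraic ℚ (Complex.exp (β * Complex.exp 1 * (l + 1))) := not_not.1 htr
  have he : Transcendental ℚ (Complex.exp 1) := by
    have h1 := Pool.Agent.HP778.ofReal_transcendental transcendental_exp_one
    rwa [Complex.ofReal_exp, Complex.ofReal_one] at h1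
  refine ⟨hz, l, hl, ![0, β * Complex.exp 1], ⟨![0, MvPolynomial.C
    (⟨β, mem_algebraicClosure_iff.2 hβ⟩ : algebraicClosure ℚ ℂ) * MvPolynomial.X 0], 1, ?_,
    by simp, by simp, ?_⟩, ?_, ?_⟩
  · intro j i
    fin_cases j
    · simp
    · show MvPolynomial.degreeOf i (MvPolynomial.C
        (⟨β, mem_algebraicClosure_iff.2 hβ⟩ : algebraicClosure ℚ ℂ) * MvPolynomial.X 0) ≤ 1
      refine (MvPolynomial.degreeOf_C_mul_le _ _ _).trans ?_
      rw [MvPolynomial.degreeOf_X]
      split_ifs <;> simp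
  · intro j
    fin_cases j
    · simp
    · show β * Complex.exp 1 = MvPolynomial.aeval (fun _ : Fin 1 => Complex.exp 1)
        (MvPolynomial.C (⟨β, mem_algebraicClosure_iff.2 hβ⟩ : algebraicClosure ℚ ℂ) *
          MvPolynomial.X 0) / MvPolynomial.aeval (fun _ : Fin 1 => Complex.exp 1) 1
      rw [map_one, div_one, map_mul, MvPolynomial.aeval_C, MvPolynomial.aeval_X]
      rfl
  · show Transcendental ℚ (β * Complex.exp 1)
    intro h1
    apply he
    have h2 : Complex.exp 1 = β⁻¹ * (β * Complex.exp 1) := by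
      rw [← mul_assoc, inv_mul_cancel₀ hβ0, one_mul]
    rw [h2]
    exact hβ.inv.mul h1
  · show Complex.exp 0 * Complex.exp (β * Complex.exp 1 * (l + 1)) ∈ Prods
    rw [Complex.exp_zero, one_mul]
    exact alg_prods halg (Complex.exp_ne_zero _)

/-- **Main result.** (1) The height inequality for sums of exceptional multipliers. (2) Two
exceptional multipliers. (3) The number of representations as sums of numbers which are equal to
exceptional multipliers up to factors of small height. (4) The powers `(y e) ^ (β e)` and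
`(z e) ^ (β e)`. (5) The same for `δ z`, `δ' (z + 1)`, for all but finitely many algebraic `z` and
all `δ`, `δ'` of small height. (6) `Prods` contains the nonzero algebraic numbers. -/
theorem result :
    -- (1)
    (∀ (r D n : ℕ) (t : Fin r → ℂ) (w : ℂ), ∃ C : ℝ,
      ∀ α c : Fin n → ℂ, (∀ j, α j ∈ Exc t D w) → (∀ j, IsAlgebraic ℚ (c j)) →
        (∀ I : Finset (Fin n), I.Nonempty → ∑ j ∈ I, c j * α j ≠ 0) →
        ∀ j, ht (α j) ≤ C * (1 + ht (∑ j, c j * α j) + ∑ j, ht (c j))) ∧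
    -- (2)
    (∀ (r D : ℕ) (t : Fin r → ℂ) (w : ℂ), ∃ C : ℝ,
      ∀ α ∈ Exc t D w, ∀ β ∈ Exc t D w, α ≠ β → ht α + ht β ≤ C * (1 + ht (α - β))) ∧
    -- (3)
    (∀ (r D n : ℕ) (t : Fin r → ℂ) (w : ℂ), ∃ (ε B : ℝ) (e : ℕ), 0 < ε ∧
      ∀ (c : Fin n → ℂ) (s : ℂ), (∀ j, IsAlgebraic ℚ (c j)) → IsAlgebraic ℚ s →
        {x : Fin n → ℂ | (∀ j, IsAlgebraic ℚ (x j) ∧ ∃ α ∈ Exc t D w, ht (x j / α) < ε) ∧
          ∑ j, c j * x j = s ∧ ∀ I : Finset (Fin n), I.Nonempty → ∑ j ∈ I, c j * x j ≠ 0}.Finite ∧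
        ({x : Fin n → ℂ | (∀ j, IsAlgebraic ℚ (x j) ∧ ∃ α ∈ Exc t D w, ht (x j / α) < ε) ∧
          ∑ j, c j * x j = s ∧ ∀ I : Finset (Fin n), I.Nonempty →
          ∑ j ∈ I, c j * x j ≠ 0}.ncard : ℝ) ≤ B * (1 + ht s + ∑ j, ht (c j)) ^ e) ∧
    -- (4)
    (∃ C : ℝ, ∀ y z : ℂ, IsAlgebraic ℚ y → IsAlgebraic ℚ z → y ≠ z →
      C * (1 + ht (y - z)) < ht y → AllTranscendental y ∨ AllTranscendental z) ∧
    -- (5)
    (∃ ε : ℝ, 0 < ε ∧ {z : ℂ | IsAlgebraic ℚ z ∧ ∃ δ δ' : ℂ, IsAlgebraic ℚ δ ∧ IsAlgebraic ℚ δ' ∧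
      δ ≠ 0 ∧ δ' ≠ 0 ∧ ht δ < ε ∧ ht δ' < ε ∧
      ¬ (AllTranscendental (δ * z) ∨ AllTranscendental (δ' * (z + 1)))}.Finite) ∧
    -- (6)
    (∀ x : ℂ, IsAlgebraic ℚ x → x ≠ 0 → x ∈ Prods) := by
  refine ⟨fun r D n t w => ?_, fun r D t w => ?_, fun r D n t w => ?_, ?_, ?_,
    fun _ hx hx0 => alg_prods hx hx0⟩
  · obtain ⟨C, -, hC⟩ := heights t D w n
    exact ⟨C, hC⟩
  · obtain ⟨C, -, hC⟩ := pairs t D w
    exact ⟨C, hC⟩
  · obtain ⟨ε, B, e, hε, -, hB⟩ := near t D w n
    exact ⟨ε, B, e, hε, hB⟩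
  · obtain ⟨C, -, hC⟩ := pairs (fun _ : Fin 1 => Complex.exp 1) 1 1
    refine ⟨C, fun y z hy hz hne hlt => ?_⟩
    by_contra hcon
    rw [not_or] at hcon
    have h1 := hC y (exc_e hy hcon.1) z (exc_e hz hcon.2) hne
    have := ht_nonneg z
    linarith
  · obtain ⟨ε, B, e, hε, -, hB⟩ := near (fun _ : Fin 1 => Complex.exp 1) 1 1 2
    obtain ⟨hfin, -⟩ := hB ![-1, 1] 1 (fun j => by
      fin_cases j
      · exact isAlgebraic_one.neg
      · exact isAlgebraic_one) isAlgebraic_one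
    refine ⟨ε, hε, ?_⟩
    refine (((hfin.image (fun x => x 0)).union (Set.finite_singleton 0)).union
      (Set.finite_singleton (-1))).subset ?_
    rintro z ⟨hz, δ, δ', hδ, hδ', hδ0, hδ'0, hh, hh', hno⟩
    rw [not_or] at hno
    by_cases hz0 : z = 0
    · exact Or.inl (Or.inr hz0)
    by_cases hz1 : z = -1
    · exact Or.inr hz1
    have hz1' : z + 1 ≠ 0 := fun h => hz1 (by linear_combination h)
    have ha1 : IsAlgebraic ℚ (z + 1) := hz.add isAlgebraic_one
    have hinv : ∀ {x : ℂ}, IsAlgebraic ℚ x → ht x⁻¹ = ht x := by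
      intro x hx
      obtain ⟨y, rfl⟩ := exists_sg hx
      rw [← map_inv₀, ht_sg, ht_sg, h1_inv]
    refine Or.inl (Or.inl ⟨![z, z + 1], ⟨fun j => ?_, ?_, fun I hI h0 => ?_⟩, rfl⟩)
    · fin_cases j
      · refine ⟨hz, δ * z, exc_e (hδ.mul hz) hno.1, ?_⟩
        show ht (z / (δ * z)) < ε
        have e1 : z / (δ * z) = δ⁻¹ := by field_simp
        rw [e1, hinv hδ]
        exact hh
      · refine ⟨ha1, δ' * (z + 1), exc_e (hδ'.mul ha1) hno.2, ?_⟩
        show ht ((z + 1) / (δ' * (z + 1))) < ε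
        have e1 : (z + 1) / (δ' * (z + 1)) = δ'⁻¹ := by field_simp
        rw [e1, hinv hδ']
        exact hh'
    · rw [Fin.sum_univ_two]
      show -1 * z + 1 * (z + 1) = 1
      ring
    · rw [sum_two] at h0
      simp only [Matrix.cons_val_zero, Matrix.cons_val_one, neg_one_mul, one_mul] at h0
      by_cases a : (0 : Fin 2) ∈ I <;> by_cases b : (1 : Fin 2) ∈ I
      · rw [if_pos a, if_pos b] at h0
        exact one_ne_zero (by linear_combination h0)
      · rw [if_pos a, if_neg b, add_zero, neg_eq_zero] at h0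
        exact hz0 h0
      · rw [if_neg a, if_pos b, zero_add] at h0
        exact hz1' h0
      · obtain ⟨i, hi⟩ := hI
        fin_cases i
        · exact a hi
        · exact b hi

end Pool.Agent.Results.MP_58ae59_nt.HeightsOfExceptionalMultiples
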